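import Pool.Agent.Lib.MP_9a7843_ag.Defs

/-!
# Block C, module Loc: points, local rings, values
-/

noncomputable section

open MvPolynomial Classical

namespace Pool.Agent.MP9a7843

universe u

namespace ProjVar

variable {k : Type u} [Field k] {Y : ProjVar k}

theorem isPt_z : Y.IsPt Y.z := ⟨Y.exists_ne_zero, fun _ _ _ h => h⟩

section

variable {F : Type u} [Field F] [Algebra k F] {c : Y.ι → F}

theorem IsPt.aeval_z_ne (hc : Y.IsPt c) {d : ℕ} {H : MvPolynomial Y.ι k} (hH : H.IsHomogeneous d)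
    (h : aeval c H ≠ 0) : aeval Y.z H ≠ 0 := fun h0 => h (hc.2 d H hH h0)

theorem IsPt.z_ne (hc : Y.IsPt c) {j : Y.ι} (h : c j ≠ 0) : Y.z j ≠ 0 := by
  have := hc.aeval_z_ne (isHomogeneous_X k j) (by simpa using h)
  simpa using this

theorem hasValue_unique (hc : Y.IsPt c) {a : Y.K} {b b' : F} (h : Y.HasValue c a b)
    (h' : Y.HasValue c a b') : b = b' := by
  obtain ⟨d, G, H, hG, hH, hn, ha, hb⟩ := h
  obtain ⟨d', G', H', hG', hH', hn', ha', hb'⟩ := h'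
  have h1 := hc.aeval_z_ne hH hn
  have h2 := hc.aeval_z_ne hH' hn'
  have h3 : aeval Y.z (G * H' - G' * H) = 0 := by
    rw [ha] at ha'
    rw [div_eq_div_iff h1 h2] at ha'
    simp only [map_sub, map_mul, ha', sub_self]
  have h4 : (G * H' - G' * H).IsHomogeneous (d + d') :=
    (hG.mul hH').sub (by rw [add_comm]; exact hG'.mul hH)
  have h5 := hc.2 _ _ h4 h3
  simp only [map_sub, map_mul] at h5
  rw [hb, hb', div_eq_div_iff hn hn']
  linear_combination h5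

theorem hasValue_add (hc : Y.IsPt c) {a a' : Y.K} {b b' : F} (h : Y.HasValue c a b)
    (h' : Y.HasValue c a' b') : Y.HasValue c (a + a') (b + b') := by
  obtain ⟨d, G, H, hG, hH, hn, ha, hb⟩ := h
  obtain ⟨d', G', H', hG', hH', hn', ha', hb'⟩ := h'
  have h1 := hc.aeval_z_ne hH hn
  have h2 := hc.aeval_z_ne hH' hn'
  refine ⟨d + d', G * H' + G' * H, H * H',
    (hG.mul hH').add (by rw [add_comm]; exact hG'.mul hH), hH.mul hH', ?_, ?_, ?_⟩
  · simp [hn, hn']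
  · rw [ha, ha']
    simp only [map_add, map_mul]
    field_simp
  · rw [hb, hb']
    simp only [map_add, map_mul]
    field_simp

theorem hasValue_mul {a a' : Y.K} {b b' : F} (h : Y.HasValue c a b)
    (h' : Y.HasValue c a' b') : Y.HasValue c (a * a') (b * b') := by
  obtain ⟨d, G, H, hG, hH, hn, ha, hb⟩ := h
  obtain ⟨d', G', H', hG', hH', hn', ha', hb'⟩ := h'
  refine ⟨d + d', G * G', H * H', hG.mul hG', hH.mul hH', by simp [hn, hn'], ?_, ?_⟩
  · rw [ha, ha']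
    simp only [map_mul]
    rw [div_mul_div_comm]
  · rw [hb, hb']
    simp only [map_mul]
    rw [div_mul_div_comm]

theorem hasValue_algebraMap (r : k) :
    Y.HasValue c (algebraMap k Y.K r) (algebraMap k F r) :=
  ⟨0, C r, 1, isHomogeneous_C _ _, isHomogeneous_one _ _, by simp, by simp, by simp⟩

theorem hasValue_inv (hc : Y.IsPt c) {a : Y.K} {b : F} (h : Y.HasValue c a b) (hb0 : b ≠ 0) :
    Y.HasValue c a⁻¹ b⁻¹ := by
  obtain ⟨d, G, H, hG, hH, hn, ha, hb⟩ := h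
  have h1 : aeval c G ≠ 0 := by
    intro h0
    rw [h0, zero_div] at hb
    exact hb0 hb
  exact ⟨d, H, G, hH, hG, h1, by rw [ha, inv_div], by rw [hb, inv_div]⟩

theorem hasValue_coord {j : Y.ι} (i : Y.ι) (hj : c j ≠ 0) :
    Y.HasValue c (Y.z i / Y.z j) (c i / c j) :=
  ⟨1, X i, X j, isHomogeneous_X _ _, isHomogeneous_X _ _, by simpa using hj, by simp, by simp⟩

theorem mem_loc_iff (hc : Y.IsPt c) {a : Y.K} : a ∈ Y.loc c ↔ ∃ b, Y.HasValue c a b := by
  refine ⟨fun h => ?_, fun h => Algebra.subset_adjoin h⟩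
  induction h using Algebra.adjoin_induction with
  | mem x hx => exact hx
  | algebraMap r => exact ⟨_, hasValue_algebraMap r⟩
  | add x y _ _ hx hy =>
    obtain ⟨b, hb⟩ := hx
    obtain ⟨b', hb'⟩ := hy
    exact ⟨_, hasValue_add hc hb hb'⟩
  | mul x y _ _ hx hy =>
    obtain ⟨b, hb⟩ := hx
    obtain ⟨b', hb'⟩ := hy
    exact ⟨_, hasValue_mul hb hb'⟩

theorem hasValue_ev (hc : Y.IsPt c) {a : Y.K} (ha : a ∈ Y.loc c) : Y.HasValue c a (Y.ev c a) :=
  Classical.epsilon_spec ((mem_loc_iff hc).1 ha)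

theorem ev_eq (hc : Y.IsPt c) {a : Y.K} {b : F} (h : Y.HasValue c a b) : Y.ev c a = b :=
  hasValue_unique hc (Classical.epsilon_spec ⟨b, h⟩) h

theorem mem_loc_of_hasValue {a : Y.K} {b : F} (h : Y.HasValue c a b) : a ∈ Y.loc c :=
  Algebra.subset_adjoin ⟨b, h⟩

/-- The evaluation at the point `c`. -/
def evHom (hc : Y.IsPt c) : Y.loc c →ₐ[k] F where
  toFun a := Y.ev c a
  map_one' := ev_eq hc (by simpa using hasValue_algebraMap (Y := Y) (c := c) (1 : k))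
  map_zero' := ev_eq hc (by simpa using hasValue_algebraMap (Y := Y) (c := c) (0 : k))
  map_mul' a b := ev_eq hc (hasValue_mul (hasValue_ev hc a.2) (hasValue_ev hc b.2))
  map_add' a b := ev_eq hc (hasValue_add hc (hasValue_ev hc a.2) (hasValue_ev hc b.2))
  commutes' r := ev_eq hc (hasValue_algebraMap r)

@[simp] theorem evHom_apply (hc : Y.IsPt c) (a : Y.loc c) : evHom hc a = Y.ev c a := rfl

theorem ev_mul (hc : Y.IsPt c) {a b : Y.K} (ha : a ∈ Y.loc c) (hb : b ∈ Y.loc c) :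
    Y.ev c (a * b) = Y.ev c a * Y.ev c b := (evHom hc).map_mul ⟨a, ha⟩ ⟨b, hb⟩

theorem ev_add (hc : Y.IsPt c) {a b : Y.K} (ha : a ∈ Y.loc c) (hb : b ∈ Y.loc c) :
    Y.ev c (a + b) = Y.ev c a + Y.ev c b := (evHom hc).map_add ⟨a, ha⟩ ⟨b, hb⟩

theorem ev_algebraMap (hc : Y.IsPt c) (r : k) :
    Y.ev c (algebraMap k Y.K r) = algebraMap k F r := ev_eq hc (hasValue_algebraMap r)

theorem ev_one (hc : Y.IsPt c) : Y.ev c 1 = 1 := (evHom hc).map_one

theorem ev_zero (hc : Y.IsPt c) : Y.ev c 0 = 0 := (evHom hc).map_zero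

theorem coord_mem_loc {j : Y.ι} (i : Y.ι) (hj : c j ≠ 0) : Y.z i / Y.z j ∈ Y.loc c :=
  mem_loc_of_hasValue (hasValue_coord i hj)

theorem ev_coord (hc : Y.IsPt c) {j : Y.ι} (i : Y.ι) (hj : c j ≠ 0) :
    Y.ev c (Y.z i / Y.z j) = c i / c j := ev_eq hc (hasValue_coord i hj)

theorem form_mem_loc (hc : Y.IsPt c) {d : ℕ} {G H : MvPolynomial Y.ι k}
    (hG : G.IsHomogeneous d) (hH : H.IsHomogeneous d) (h : aeval c H ≠ 0) :
    aeval Y.z G / aeval Y.z H ∈ Y.loc c :=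
  mem_loc_of_hasValue (b := aeval c G / aeval c H) ⟨d, G, H, hG, hH, h, rfl, rfl⟩

theorem ev_form (hc : Y.IsPt c) {d : ℕ} {G H : MvPolynomial Y.ι k}
    (hG : G.IsHomogeneous d) (hH : H.IsHomogeneous d) (h : aeval c H ≠ 0) :
    Y.ev c (aeval Y.z G / aeval Y.z H) = aeval c G / aeval c H :=
  ev_eq hc ⟨d, G, H, hG, hH, h, rfl, rfl⟩

theorem inv_mem_loc (hc : Y.IsPt c) {a : Y.K} (ha : a ∈ Y.loc c) (h : Y.ev c a ≠ 0) :
    a⁻¹ ∈ Y.loc c := mem_loc_of_hasValue (hasValue_inv hc (hasValue_ev hc ha) h)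

theorem ev_inv (hc : Y.IsPt c) {a : Y.K} (ha : a ∈ Y.loc c) (h : Y.ev c a ≠ 0) :
    Y.ev c a⁻¹ = (Y.ev c a)⁻¹ := ev_eq hc (hasValue_inv hc (hasValue_ev hc ha) h)

theorem ev_ne_zero (hc : Y.IsPt c) {a : Y.K} (h0 : a ≠ 0) (ha : a ∈ Y.loc c)
    (h : a⁻¹ ∈ Y.loc c) : Y.ev c a ≠ 0 := by
  intro h1
  have := ev_mul hc ha h
  rw [mul_inv_cancel₀ h0, ev_one hc, h1, zero_mul] at this
  exact one_ne_zero this

theorem inv_mem_loc_iff (hc : Y.IsPt c) {a : Y.K} (h0 : a ≠ 0) (ha : a ∈ Y.loc c) :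
    a⁻¹ ∈ Y.loc c ↔ Y.ev c a ≠ 0 := ⟨ev_ne_zero hc h0 ha, inv_mem_loc hc ha⟩

theorem isUnit_loc_iff (hc : Y.IsPt c) (a : Y.loc c) : IsUnit a ↔ Y.ev c a ≠ 0 := by
  constructor
  · intro h
    exact ((h.map (evHom hc)).ne_zero)
  · intro h
    have h0 : (a : Y.K) ≠ 0 := by
      intro h0
      rw [h0, ev_zero hc] at h
      exact h rfl
    refine IsUnit.of_mul_eq_one ⟨(a : Y.K)⁻¹, inv_mem_loc hc a.2 h⟩ ?_
    ext
    simp [h0]

theorem isLocalRing_loc (hc : Y.IsPt c) : IsLocalRing (Y.loc c) := by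
  haveI : Nontrivial (Y.loc c) := inferInstance
  refine IsLocalRing.of_nonunits_add fun a b ha hb => ?_
  rw [mem_nonunits_iff, isUnit_loc_iff hc, not_not] at ha hb ⊢
  have := ev_add hc a.2 b.2
  rw [ha, hb, add_zero] at this
  exact this

/-- `a` and `b` are equal up to a unit of the local ring at `c`. -/
def UnitAt (Y : ProjVar k) (c : Y.ι → F) (a b : Y.K) : Prop :=
  a / b ∈ Y.loc c ∧ b / a ∈ Y.loc c

theorem UnitAt.symm {a b : Y.K} (h : Y.UnitAt c a b) : Y.UnitAt c b a := ⟨h.2, h.1⟩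

theorem UnitAt.refl {a : Y.K} (ha : a ≠ 0) : Y.UnitAt c a a := by
  constructor <;> (rw [div_self ha]; exact one_mem _)

theorem UnitAt.trans {a b d : Y.K} (hb : b ≠ 0) (h : Y.UnitAt c a b) (h' : Y.UnitAt c b d) :
    Y.UnitAt c a d := by
  constructor
  · have := mul_mem h.1 h'.1
    rwa [div_mul_div_cancel₀ hb] at this
  · have := mul_mem h'.2 h.2
    rwa [div_mul_div_cancel₀ hb] at this

theorem UnitAt.mul {a b a' b' : Y.K} (h : Y.UnitAt c a b) (h' : Y.UnitAt c a' b') :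
    Y.UnitAt c (a * a') (b * b') := by
  constructor
  · rw [mul_div_mul_comm]; exact mul_mem h.1 h'.1
  · rw [mul_div_mul_comm]; exact mul_mem h.2 h'.2

theorem UnitAt.inv {a b : Y.K} (h : Y.UnitAt c a b) : Y.UnitAt c a⁻¹ b⁻¹ := by
  constructor
  · rw [inv_div_inv]; exact h.2
  · rw [inv_div_inv]; exact h.1

theorem UnitAt.ev_ne_zero (hc : Y.IsPt c) {a b : Y.K} (ha : a ≠ 0) (hb : b ≠ 0)
    (h : Y.UnitAt c a b) : Y.ev c (a / b) ≠ 0 :=
  ProjVar.ev_ne_zero hc (div_ne_zero ha hb) h.1 (by rw [inv_div]; exact h.2)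

end

/-! ### Specialisation -/

section

variable {F G : Type u} [Field F] [Algebra k F] [Field G] [Algebra k G]

/-- The point `y` is in the closure of the point `c`: all forms which vanish at `c` vanish
at `y`. -/
def Spz (Y : ProjVar k) (c : Y.ι → F) (y : Y.ι → G) : Prop :=
  ∀ (d : ℕ) (P : MvPolynomial Y.ι k), P.IsHomogeneous d → aeval c P = 0 → aeval y P = 0

theorem spz_z {y : Y.ι → G} (hy : Y.IsPt y) : Y.Spz Y.z y := fun d P hP h => hy.2 d P hP h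

theorem Spz.loc_le {c : Y.ι → F} {y : Y.ι → G} (h : Y.Spz c y) : Y.loc y ≤ Y.loc c := by
  refine Algebra.adjoin_mono ?_
  rintro a ⟨b, d, P, Q, hP, hQ, hn, ha, hb⟩
  exact ⟨_, d, P, Q, hP, hQ, fun h0 => hn (h d Q hQ h0), ha, rfl⟩

theorem Spz.ne_zero {c : Y.ι → F} {y : Y.ι → G} (h : Y.Spz c y) {j : Y.ι} (hj : y j ≠ 0) :
    c j ≠ 0 := by
  intro h0
  have := h 1 (X j) (isHomogeneous_X _ _) (by simpa using h0)
  exact hj (by simpa using this)

theorem Spz.unitAt {c : Y.ι → F} {y : Y.ι → G} (h : Y.Spz c y) {a b : Y.K}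
    (hu : Y.UnitAt y a b) : Y.UnitAt c a b := ⟨h.loc_le hu.1, h.loc_le hu.2⟩

theorem spz_of_loc_le {c : Y.ι → F} {y : Y.ι → G} (hc : Y.IsPt c) (hy : Y.IsPt y)
    (h : Y.loc y ≤ Y.loc c) : Y.Spz c y := by
  intro d P hP h0
  by_contra hne
  obtain ⟨j, hj⟩ := hc.1
  have hz := hy.aeval_z_ne hP hne
  have hXj : ((X j : MvPolynomial Y.ι k) ^ d).IsHomogeneous d := by
    simpa using (isHomogeneous_X k j).pow d
  have h1 : aeval Y.z ((X j : MvPolynomial Y.ι k) ^ d) / aeval Y.z P ∈ Y.loc y :=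
    form_mem_loc hy hXj hP hne
  have h2 := h h1
  have hcj : aeval c ((X j : MvPolynomial Y.ι k) ^ d) ≠ 0 := by simpa using pow_ne_zero d hj
  have h3 : aeval Y.z P / aeval Y.z ((X j : MvPolynomial Y.ι k) ^ d) ∈ Y.loc c :=
    form_mem_loc hc hP hXj hcj
  have hzj : aeval Y.z ((X j : MvPolynomial Y.ι k) ^ d) ≠ 0 := hc.aeval_z_ne hXj hcj
  have h4 := ev_mul hc h2 h3
  rw [div_mul_div_cancel₀ hz, div_self hzj, ev_one hc, ev_form hc hP hXj hcj, h0, zero_div,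
    mul_zero] at h4
  exact one_ne_zero h4

theorem aeval_smul_form {ι : Type} {c : ι → F} {d : ℕ} {P : MvPolynomial ι k}
    (hP : P.IsHomogeneous d) (r : F) : aeval (r • c) P = r ^ d * aeval c P := by
  rw [aeval_def, aeval_def, eval₂_eq, eval₂_eq, Finset.mul_sum]
  refine Finset.sum_congr rfl fun m hm => ?_
  have h1 : ∑ i ∈ m.support, m i = d := by
    have := hP (mem_support_iff.1 hm)
    simpa [Finsupp.weight_apply, Finsupp.sum] using this
  simp only [Pi.smul_apply, smul_eq_mul, mul_pow, Finset.prod_mul_distrib]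
  rw [Finset.prod_pow_eq_pow_sum, h1]
  ring

theorem IsPt.smul {c : Y.ι → F} (hc : Y.IsPt c) {r : F} (hr : r ≠ 0) :
    Y.IsPt (r • c) := by
  refine ⟨?_, fun d P hP h => ?_⟩
  · obtain ⟨i, hi⟩ := hc.1
    exact ⟨i, by simpa using ⟨hr, hi⟩⟩
  · rw [aeval_smul_form hP, hc.2 d P hP h, mul_zero]

theorem hasValue_smul {c : Y.ι → F} {r : F} (hr : r ≠ 0) {a : Y.K} {b : F} :
    Y.HasValue (r • c) a b ↔ Y.HasValue c a b := by
  constructor
  · rintro ⟨d, P, Q, hP, hQ, hn, ha, hb⟩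
    rw [aeval_smul_form hQ] at hn
    rw [aeval_smul_form hP, aeval_smul_form hQ, mul_div_mul_left _ _ (pow_ne_zero _ hr)] at hb
    exact ⟨d, P, Q, hP, hQ, right_ne_zero_of_mul hn, ha, hb⟩
  · rintro ⟨d, P, Q, hP, hQ, hn, ha, hb⟩
    refine ⟨d, P, Q, hP, hQ, ?_, ha, ?_⟩
    · rw [aeval_smul_form hQ]
      exact mul_ne_zero (pow_ne_zero _ hr) hn
    · rw [aeval_smul_form hP, aeval_smul_form hQ, mul_div_mul_left _ _ (pow_ne_zero _ hr)]
      exact hb

theorem loc_smul {c : Y.ι → F} {r : F} (hr : r ≠ 0) : Y.loc (r • c) = Y.loc c := by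
  unfold loc
  simp only [hasValue_smul hr]

theorem ev_smul {c : Y.ι → F} {r : F} (hr : r ≠ 0) (a : Y.K) : Y.ev (r • c) a = Y.ev c a := by
  unfold ev
  congr 1
  ext b
  exact hasValue_smul hr

theorem hasValue_z_eq {a b : Y.K} (h : Y.HasValue Y.z a b) : b = a := by
  obtain ⟨d, P, Q, hP, hQ, hn, ha, hb⟩ := h
  rw [hb, ← ha]

/-- At the generic point everything is defined. -/
theorem loc_z : Y.loc Y.z = ⊤ := by
  rw [eq_top_iff]
  rintro a -
  have h : a ∈ IntermediateField.adjoin k {a : Y.K | ∃ i j, a = Y.z i / Y.z j} := by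
    rw [Y.adjoin_eq_top]; trivial
  induction h using IntermediateField.adjoin_induction with
  | mem x hx =>
    obtain ⟨i, j, rfl⟩ := hx
    by_cases hj : Y.z j = 0
    · rw [hj, div_zero]; exact zero_mem _
    · exact coord_mem_loc i hj
  | algebraMap r => exact (Y.loc Y.z).algebraMap_mem r
  | add x y _ _ hx hy => exact add_mem hx hy
  | mul x y _ _ hx hy => exact mul_mem hx hy
  | inv x _ hx =>
    by_cases h0 : x = 0
    · rw [h0, inv_zero]; exact zero_mem _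
    · refine inv_mem_loc isPt_z hx ?_
      rw [hasValue_z_eq (hasValue_ev isPt_z hx)]
      exact h0

theorem ev_z (a : Y.K) : Y.ev Y.z a = a := by
  have h : a ∈ Y.loc Y.z := by rw [loc_z]; trivial
  exact hasValue_z_eq (hasValue_ev isPt_z h)

theorem exists_form (a : Y.K) : ∃ (d : ℕ) (P Q : MvPolynomial Y.ι k), P.IsHomogeneous d ∧
    Q.IsHomogeneous d ∧ aeval Y.z Q ≠ 0 ∧ a = aeval Y.z P / aeval Y.z Q := by
  have h : a ∈ Y.loc Y.z := by rw [loc_z]; trivial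
  obtain ⟨d, P, Q, hP, hQ, hn, ha, hb⟩ := hasValue_ev isPt_z h
  exact ⟨d, P, Q, hP, hQ, hn, ha⟩

/-- `K` is the field of fractions of the local ring. -/
theorem exists_frac {c : Y.ι → F} (hc : Y.IsPt c) (a : Y.K) :
    ∃ b ∈ Y.loc c, ∃ d ∈ Y.loc c, d ≠ 0 ∧ a = b / d := by
  obtain ⟨d, P, Q, hP, hQ, hn, ha⟩ := exists_form a
  obtain ⟨j, hj⟩ := hc.1
  have hXj : ((X j : MvPolynomial Y.ι k) ^ d).IsHomogeneous d := by
    simpa using (isHomogeneous_X k j).pow d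
  have hcj : aeval c ((X j : MvPolynomial Y.ι k) ^ d) ≠ 0 := by simpa using pow_ne_zero d hj
  have hzj : aeval Y.z ((X j : MvPolynomial Y.ι k) ^ d) ≠ 0 := hc.aeval_z_ne hXj hcj
  refine ⟨_, form_mem_loc hc hP hXj hcj, _, form_mem_loc hc hQ hXj hcj, div_ne_zero hn hzj, ?_⟩
  rw [ha]
  field_simp

theorem isFractionRing_loc {c : Y.ι → F} (hc : Y.IsPt c) : IsFractionRing (Y.loc c) Y.K := by
  refine IsFractionRing.of_field _ _ fun a => ?_
  obtain ⟨b, hb, d, hd, -, h⟩ := exists_frac hc a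
  exact ⟨⟨b, hb⟩, ⟨d, hd⟩, h⟩

end

end ProjVar

end Pool.Agent.MP9a7843
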